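import Pool.Agent.Helper8.DDFin
import Pool.Agent.Helper8.BK.Reg
import Pool.Agent.Helper8.BK.Sch

/-!
# MP_af7045_al: the Debes-Deschamps conjecture over a field that is not ample

Every algebraically closed field `k` of characteristic `0` is contained in a field `K` which is not
ample (there is a smooth, geometrically integral curve over `K` which has a `K`-rational point, but
only finitely many) and over which every finite split embedding problem has a regular solution. This
is Q1 in the words of the problem file. The frozen statement `S02703` says the same with `ample`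
replaced by `existentially closed in K((t))` and with split embedding problems written as semidirect
products.
-/

set_option autoImplicit false

namespace Pool.Agent.Results.MP_af7045_al.NonAmpleField

open CategoryTheory AlgebraicGeometry

/-- The `K`-rational points of a scheme `p : C ⟶ Spec K` over `K`: the sections of `p`. -/
def Points {K : Type} [Field K] {C : Scheme.{0}} (p : C ⟶ Spec (CommRingCat.of K)) : Type :=
  {x : Spec (CommRingCat.of K) ⟶ C // x ≫ p = 𝟙 (Spec (CommRingCat.of K))}

/-- `K` is ample (large): every smooth, geometrically integral curve over `K` (separated and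
quasi-compact, smooth of relative dimension `1`) that has a `K`-rational point has infinitely many
`K`-rational points. -/
def IsAmple (K : Type) [Field K] : Prop :=
  ∀ (C : Scheme.{0}) (p : C ⟶ Spec (CommRingCat.of K)),
    SmoothOfRelativeDimension 1 p → GeometricallyIntegral p → IsSeparated p → QuasiCompact p →
      Nonempty (Points p) → Infinite (Points p)

/-- The extension `F/E` of fields is regular: `E` is algebraically closed in `F`, and `F/E` is
separable (that is, the tensor product of `F` with an algebraic closure of `E` is reduced). -/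
def IsRegularExtension (E F : Type) [Field E] [Field F] [Algebra E F] : Prop :=
  (∀ x : F, IsAlgebraic E x → x ∈ Set.range (algebraMap E F)) ∧ Algebra.IsGeometricallyReduced E F

/-- The map `E(t) → F(t)` which is `f : E → F` on the coefficients and fixes `t`. -/
noncomputable def mapCoeff {E F : Type} [Field E] [Field F] (f : E →+* F) :
    RatFunc E →+* RatFunc F :=
  RatFunc.mapRingHom (Polynomial.mapRingHom f) (by
    intro p hp
    rw [Submonoid.mem_comap, mem_nonZeroDivisors_iff_ne_zero]
    rw [mem_nonZeroDivisors_iff_ne_zero] at hp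
    exact (Polynomial.map_ne_zero_iff f.injective).mpr hp)

/-- The embedding problem `α : Γ → Gal(L/K)` has a regular solution: there are a finite Galois
extension `F/K(t)`, an embedding `j` of `L(t)` into `F` over `K(t)`, and an isomorphism
`γ : Gal(F/K(t)) → Γ` such that every `σ` in `Gal(F/K(t))` restricts on `L(t)` to the automorphism
given by `α (γ σ)` in `Gal(L/K) = Gal(L(t)/K(t))`, and `F/L` is regular. -/
def HasRegularSolution (K L Γ : Type) [Field K] [Field L] [Algebra K L] [Group Γ]
    (α : Γ →* (L ≃ₐ[K] L)) : Prop :=
  ∃ (F : Type) (_ : Field F) (_ : Algebra (RatFunc K) F) (j : RatFunc L →+* F)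
    (γ : (F ≃ₐ[RatFunc K] F) ≃* Γ),
    (∀ r : RatFunc K, j (mapCoeff (algebraMap K L) r) = algebraMap (RatFunc K) F r) ∧
    FiniteDimensional (RatFunc K) F ∧ IsGalois (RatFunc K) F ∧
    (∀ (σ : F ≃ₐ[RatFunc K] F) (r : RatFunc L),
      σ (j r) = j (mapCoeff (α (γ σ) : L →+* L) r)) ∧
    letI : Algebra L F := (j.comp (algebraMap L (RatFunc L))).toAlgebra
    IsRegularExtension L F

/-- The Debes-Deschamps conjecture holds for `K`: every finite split embedding problem over `K`
(a finite Galois extension `L/K`, a finite group `Γ`, and a homomorphism `α : Γ → Gal(L/K)` with a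
section `s`, so that `α` is onto) has a regular solution. -/
def DebesDeschamps (K : Type) [Field K] : Prop :=
  ∀ (L : Type) [Field L] [Algebra K L], FiniteDimensional K L → IsGalois K L →
  ∀ (Γ : Type) [Group Γ], Finite Γ → ∀ (α : Γ →* (L ≃ₐ[K] L)) (s : (L ≃ₐ[K] L) →* Γ),
    α.comp s = MonoidHom.id (L ≃ₐ[K] L) → HasRegularSolution K L Γ α

/-- **The Debes-Deschamps conjecture holds for a field that is not ample.** -/
theorem result (k : Type) [Field k] [IsAlgClosed k] [CharZero k] :
    ∃ (K : Type) (_ : Field K) (_ : Algebra k K), ¬ IsAmple K ∧ DebesDeschamps K := by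
  obtain ⟨G, _, algG, j, K, _, ι, a, hι, hsurj, hD, hns⟩ := Pool.Agent.Helper8.DD.limit_exists k
  have h0 : CharZero (G 0) :=
    charZero_of_injective_algebraMap (algebraMap k (G 0)).injective
  have h1 : CharZero K := (RingHom.charZero_iff (ι 0).injective).mp inferInstance
  let f : k →+* K := (ι 0).comp (algebraMap k (G 0))
  have hfa : ∀ c : k, a ≠ f c := by
    intro c hc
    obtain ⟨y0, hy0⟩ := IsAlgClosed.exists_pow_nat_eq (-c) two_pos
    obtain ⟨y2, hy2⟩ := IsAlgClosed.exists_pow_nat_eq (-1 : k) two_pos
    obtain ⟨y3, hy3⟩ := IsAlgClosed.exists_pow_nat_eq (-2 : k) two_pos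
    obtain ⟨y4, hy4⟩ := IsAlgClosed.exists_pow_nat_eq (-3 : k) two_pos
    apply hns 0 (f y0) 0 (f y2) (f y3) (f y4)
    refine ⟨?_, ?_, ?_, ?_, ?_⟩
    · rw [← map_pow, hy0, hc, map_neg, zero_sub]
    · rw [zero_pow two_ne_zero]
    · rw [← map_pow, hy2, map_neg, map_one, zero_sub]
    · rw [← map_pow, hy3, map_neg, map_ofNat, zero_sub]
    · rw [← map_pow, hy4, map_neg, map_ofNat, zero_sub]
  refine ⟨K, inferInstance, f.toAlgebra, ?_, ?_⟩
  · intro hample
    have h2 := hfa 2
    have h3 := hfa 3
    rw [map_ofNat] at h2 h3
    obtain ⟨C, p, hs, hg, hsep, hqc, hne, hfin⟩ := Pool.Agent.Helper8.BK.curve_exists K a hns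
      (by simpa using hfa 0) (by simpa using hfa 1) h2 h3
    have hinf : Infinite (Points p) := hample C p hs hg hsep hqc hne
    exact not_finite_iff_infinite.mpr hinf hfin
  · intro L _ _ hfd hgal Γ _ hΓ α s hs
    have hH : Finite α.ker := inferInstance
    exact Pool.Agent.Helper8.BK.regular_solution α s hs
      (Pool.Agent.Helper8.DD.emb_limit (k := k) j ι hι hsurj hD (Pool.Agent.Helper8.BK.act α s))

end Pool.Agent.Results.MP_af7045_al.NonAmpleField
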